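import Pool.Agent.Lib.MP_af3a4a_an.P1.CHK.DATA.N6.K10A
import Pool.Agent.Lib.MP_af3a4a_an.P1.CHK.DATA.N6.K10B

/-! chunks for 6 <= N <= 6 (generated) -/

/-! The parts are in the imported files (split by helper88 for the build time only). -/
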