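import Pool.Agent.Lib.MP_af3a4a_an.P1.CHK.DATA.N6.C10
import Pool.Agent.Lib.MP_af3a4a_an.P1.CHK.DATA.N6.C5
import Pool.Agent.Lib.MP_af3a4a_an.P1.CHK.DATA.N6.C6
import Pool.Agent.Lib.MP_af3a4a_an.P1.CHK.DATA.N6.C8
import Pool.Agent.Lib.MP_af3a4a_an.P1.CHK.DATA.N6.C9
import Pool.Agent.Lib.MP_af3a4a_an.P1.CHK.DATA.F.W576d

/-! chunks for 6 <= N <= 6 (generated) -/

set_option autoImplicit false
set_option maxRecDepth 100000

namespace Pool.Agent.Lib.MP_af3a4a_an.P1.CHK.DATA.N6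

open BOX

def t226 : Tree := (.sg 96 (.sg 80 (.leaf 3) (.leaf 3)) (.leaf 3))
theorem k226 : ChunkP 6 6 2048 2560 64 101 2464 2476 :=
  chkD_sound (Q := 40) (C := [])
    (T := []) (t := t226)
    all_nil all_nil
    (by decide +kernel)
def t227 : Tree := (.sg 64 (.sg 32 (.sg 16 (.sg 8 (.sr 2816 (.leaf 0x410800c0001e00117895cc12f62411080) (.leaf 0x420800c0001e007178958eecd62421080)) (.leaf 0x4107c0c0001e00517091ba3e683411080)) (.sg 24 (.leaf 0x4507c080001c00616888d916783451080) (.sr 2816 (.leaf 0x43088040001a002178955166a62431080) (.leaf 0x41088040001a00817895cc12f62411080)))) (.sg 48 (.sg 40 (.sr 2816 (.leaf 0x42084040001a003170916a3e283421080) (.leaf 0x4508c000001800917894f4fb262451080)) (.sr 2816 (.sg 44 (.leaf 0x43088040001a00417895500e983431080) (.sr 2688 (.leaf 0x40088040001a00017896370cb83401080) (.leaf 3))) (.leaf 3))) (.leaf 3))) (.sg 96 (.sg 80 (.leaf 3) (.leaf 3)) (.leaf 3)))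
theorem k227 : ChunkP 6 6 2560 3072 0 101 2464 2476 :=
  chkD_sound (Q := 40) (C := [c2926.c, c2946.c, c2955.c, c2961.c, c2963.c, c2978.c, c2981.c, c3170.c, c3178.c, c3182.c])
    (T := [f_w616_620_8_50_10]) (t := t227)
    (all_cons p2926 (all_cons p2946 (all_cons p2955 (all_cons p2961 (all_cons p2963 (all_cons p2978 (all_cons p2981 (all_cons p3170 (all_cons p3178 (all_cons p3182 all_nil)))))))))) (all_cons f_w616_620_8_50_10_p all_nil)
    (by decide +kernel)
def t228 : Tree := (.sr 3584 (.sg 64 (.sg 32 (.sg 16 (.sg 8 (.sr 3328 (.leaf 0x4007c100002000017896370cb83401080) (.leaf 0x4007414000220041709209bc583401080)) (.leaf 0x4307c0c0001e0011709119e2383431080)) (.sg 24 (.leaf 0x43084040001a0021709119e2383431080) (.leaf 0x4308800000180031709119e2383431080))) (.sg 48 (.leaf 3) (.leaf 3))) (.sg 96 (.sg 80 (.leaf 3) (.leaf 3)) (.leaf 3))) (.sg 64 (.sg 32 (.sg 16 (.leaf 3) (.leaf 3)) (.sg 48 (.leaf 3) (.leaf 3))) (.sg 96 (.sg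 80 (.leaf 3) (.leaf 3)) (.leaf 3))))
theorem k228 : ChunkP 6 6 3072 4096 0 101 2464 2476 :=
  chkD_sound (Q := 40) (C := [c3331.c, c3357.c, c3359.c, c3361.c, c3476.c])
    (T := [f_w616_620_8_50_10]) (t := t228)
    (all_cons p3331 (all_cons p3357 (all_cons p3359 (all_cons p3361 (all_cons p3476 all_nil))))) (all_cons f_w616_620_8_50_10_p all_nil)
    (by decide +kernel)

end Pool.Agent.Lib.MP_af3a4a_an.P1.CHK.DATA.N6
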