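import Pool.Agent.Lib.MP_af3a4a_an.P1.CHK.DATA.N6.K0
import Pool.Agent.Lib.MP_af3a4a_an.P1.CHK.DATA.N6.K1
import Pool.Agent.Lib.MP_af3a4a_an.P1.CHK.DATA.N6.K2
import Pool.Agent.Lib.MP_af3a4a_an.P1.CHK.DATA.N6.K3
import Pool.Agent.Lib.MP_af3a4a_an.P1.CHK.DATA.N6.K4
import Pool.Agent.Lib.MP_af3a4a_an.P1.CHK.DATA.N6.K5
import Pool.Agent.Lib.MP_af3a4a_an.P1.CHK.DATA.N6.K6
import Pool.Agent.Lib.MP_af3a4a_an.P1.CHK.DATA.N6.K7
import Pool.Agent.Lib.MP_af3a4a_an.P1.CHK.DATA.N6.K8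
import Pool.Agent.Lib.MP_af3a4a_an.P1.CHK.DATA.N6.K9
import Pool.Agent.Lib.MP_af3a4a_an.P1.CHK.DATA.N6.K10
import Pool.Agent.Lib.MP_af3a4a_an.P1.CHK.DATA.N6.K11
import Pool.Agent.Lib.MP_af3a4a_an.P1.CHK.DATA.N6.K12

/-! glue for 6 <= N <= 6 (generated) -/

set_option autoImplicit false
set_option maxRecDepth 100000

namespace Pool.Agent.Lib.MP_af3a4a_an.P1.CHK.DATA.N6

open BOX

theorem g0 : ChunkP 6 6 1024 1536 0 101 0 2304 := ChunkP.g k1 k2
theorem g1 : ChunkP 6 6 1536 2048 0 32 0 2304 := ChunkP.g k3 k4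
theorem g2 : ChunkP 6 6 1792 2048 32 48 1584 2304 := ChunkP.g k13 k14
theorem g3 : ChunkP 6 6 1792 2048 32 48 1536 2304 := ChunkP.R k12 g2
theorem g4 : ChunkP 6 6 1792 2048 32 48 1488 2304 := ChunkP.R k11 g3
theorem g5 : ChunkP 6 6 1792 2048 32 48 1392 2304 := ChunkP.R k10 g4
theorem g6 : ChunkP 6 6 1536 2048 32 48 1392 2304 := ChunkP.r k9 g5
theorem g7 : ChunkP 6 6 1536 2048 32 48 1344 2304 := ChunkP.R k8 g6
theorem g8 : ChunkP 6 6 1536 2048 32 48 1296 2304 := ChunkP.R k7 g7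
theorem g9 : ChunkP 6 6 1536 2048 32 48 1200 2304 := ChunkP.R k6 g8
theorem g10 : ChunkP 6 6 1536 2048 32 48 0 2304 := ChunkP.R k5 g9
theorem g11 : ChunkP 6 6 1536 1792 48 64 1632 2304 := ChunkP.R k20 k21
theorem g12 : ChunkP 6 6 1536 1792 48 64 1440 2304 := ChunkP.R k19 g11
theorem g13 : ChunkP 6 6 1792 2048 48 56 1728 2304 := ChunkP.r k27 k28
theorem g14 : ChunkP 6 6 1792 2048 48 56 1680 2304 := ChunkP.R k26 g13
theorem g15 : ChunkP 6 6 1792 2048 48 56 1632 2304 := ChunkP.R k25 g14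
theorem g16 : ChunkP 6 6 1792 2048 56 64 1824 2304 := ChunkP.r k32 k33
theorem g17 : ChunkP 6 6 1792 2048 56 64 1776 2304 := ChunkP.R k31 g16
theorem g18 : ChunkP 6 6 1792 2048 56 64 1728 2304 := ChunkP.R k30 g17
theorem g19 : ChunkP 6 6 1792 2048 56 64 1632 2304 := ChunkP.R k29 g18
theorem g20 : ChunkP 6 6 1792 2048 48 64 1632 2304 := ChunkP.g g15 g19
theorem g21 : ChunkP 6 6 1792 2048 48 64 1584 2304 := ChunkP.R k24 g20
theorem g22 : ChunkP 6 6 1792 2048 48 64 1536 2304 := ChunkP.R k23 g21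
theorem g23 : ChunkP 6 6 1792 2048 48 64 1440 2304 := ChunkP.R k22 g22
theorem g24 : ChunkP 6 6 1536 2048 48 64 1440 2304 := ChunkP.r g12 g23
theorem g25 : ChunkP 6 6 1536 2048 48 64 1392 2304 := ChunkP.R k18 g24
theorem g26 : ChunkP 6 6 1536 2048 48 64 1344 2304 := ChunkP.R k17 g25
theorem g27 : ChunkP 6 6 1536 2048 48 64 1200 2304 := ChunkP.R k16 g26
theorem g28 : ChunkP 6 6 1536 2048 48 64 0 2304 := ChunkP.R k15 g27
theorem g29 : ChunkP 6 6 1536 2048 32 64 0 2304 := ChunkP.g g10 g28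
theorem g30 : ChunkP 6 6 1536 2048 0 64 0 2304 := ChunkP.g g1 g29
theorem g31 : ChunkP 6 6 1536 2048 64 80 1680 2304 := ChunkP.r k39 k40
theorem g32 : ChunkP 6 6 1536 2048 64 80 1632 2304 := ChunkP.R k38 g31
theorem g33 : ChunkP 6 6 1536 2048 64 80 1584 2304 := ChunkP.R k37 g32
theorem g34 : ChunkP 6 6 1536 2048 64 80 1488 2304 := ChunkP.R k36 g33
theorem g35 : ChunkP 6 6 1536 2048 64 80 1296 2304 := ChunkP.R k35 g34
theorem g36 : ChunkP 6 6 1536 2048 64 80 0 2304 := ChunkP.R k34 g35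
theorem g37 : ChunkP 6 6 1536 2048 64 96 0 2304 := ChunkP.g g36 k41
theorem g38 : ChunkP 6 6 1536 2048 64 101 0 2304 := ChunkP.g g37 k42
theorem g39 : ChunkP 6 6 1536 2048 0 101 0 2304 := ChunkP.g g30 g38
theorem g40 : ChunkP 6 6 1024 2048 0 101 0 2304 := ChunkP.r g0 g39
theorem g41 : ChunkP 6 6 0 2048 0 101 0 2304 := ChunkP.r k0 g40
theorem g42 : ChunkP 6 6 2048 2560 32 40 1200 2304 := ChunkP.r k49 k50
theorem g43 : ChunkP 6 6 2048 2560 32 40 1152 2304 := ChunkP.R k48 g42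
theorem g44 : ChunkP 6 6 2048 2560 32 40 1104 2304 := ChunkP.R k47 g43
theorem g45 : ChunkP 6 6 2048 2304 40 48 1248 2304 := ChunkP.R k53 k54
theorem g46 : ChunkP 6 6 2048 2560 40 48 1248 2304 := ChunkP.r g45 k55
theorem g47 : ChunkP 6 6 2048 2560 40 48 1200 2304 := ChunkP.R k52 g46
theorem g48 : ChunkP 6 6 2048 2560 40 48 1104 2304 := ChunkP.R k51 g47
theorem g49 : ChunkP 6 6 2048 2560 32 48 1104 2304 := ChunkP.g g44 g48
theorem g50 : ChunkP 6 6 2048 2560 32 48 1056 2304 := ChunkP.R k46 g49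
theorem g51 : ChunkP 6 6 2048 2560 32 48 960 2304 := ChunkP.R k45 g50
theorem g52 : ChunkP 6 6 2048 2560 32 48 0 2304 := ChunkP.R k44 g51
theorem g53 : ChunkP 6 6 2048 2304 48 56 1632 2304 := ChunkP.g k64 k65
theorem g54 : ChunkP 6 6 2048 2304 48 56 1584 2304 := ChunkP.R k63 g53
theorem g55 : ChunkP 6 6 2048 2304 48 56 1488 2304 := ChunkP.R k62 g54
theorem g56 : ChunkP 6 6 2048 2304 48 56 1296 2304 := ChunkP.R k61 g55
theorem g57 : ChunkP 6 6 2304 2560 52 56 1680 2304 := ChunkP.r k73 k74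
theorem g58 : ChunkP 6 6 2304 2560 52 56 1632 2304 := ChunkP.R k72 g57
theorem g59 : ChunkP 6 6 2304 2560 52 56 1584 2304 := ChunkP.R k71 g58
theorem g60 : ChunkP 6 6 2304 2560 52 56 1488 2304 := ChunkP.R k70 g59
theorem g61 : ChunkP 6 6 2304 2560 48 56 1488 2304 := ChunkP.g k69 g60
theorem g62 : ChunkP 6 6 2304 2560 48 56 1440 2304 := ChunkP.R k68 g61
theorem g63 : ChunkP 6 6 2304 2560 48 56 1392 2304 := ChunkP.R k67 g62
theorem g64 : ChunkP 6 6 2304 2560 48 56 1296 2304 := ChunkP.R k66 g63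
theorem g65 : ChunkP 6 6 2048 2560 48 56 1296 2304 := ChunkP.r g56 g64
theorem g66 : ChunkP 6 6 2048 2560 48 56 1248 2304 := ChunkP.R k60 g65
theorem g67 : ChunkP 6 6 2048 2560 48 56 1152 2304 := ChunkP.R k59 g66
theorem g68 : ChunkP 6 6 2048 2304 56 60 1728 2304 := ChunkP.r k83 k84
theorem g69 : ChunkP 6 6 2048 2304 56 60 1680 2304 := ChunkP.R k82 g68
theorem g70 : ChunkP 6 6 2048 2304 56 60 1632 2304 := ChunkP.R k81 g69
theorem g71 : ChunkP 6 6 2048 2304 56 64 1632 2304 := ChunkP.g g70 k85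
theorem g72 : ChunkP 6 6 2048 2304 56 64 1584 2304 := ChunkP.R k80 g71
theorem g73 : ChunkP 6 6 2048 2304 56 64 1488 2304 := ChunkP.R k79 g72
theorem g74 : ChunkP 6 6 2048 2304 56 64 1344 2304 := ChunkP.R k78 g73
theorem g75 : ChunkP 6 6 2048 2560 56 64 1344 2304 := ChunkP.r g74 k86
theorem g76 : ChunkP 6 6 2048 2560 56 64 1296 2304 := ChunkP.R k77 g75
theorem g77 : ChunkP 6 6 2048 2560 56 64 1248 2304 := ChunkP.R k76 g76
theorem g78 : ChunkP 6 6 2048 2560 56 64 1152 2304 := ChunkP.R k75 g77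
theorem g79 : ChunkP 6 6 2048 2560 48 64 1152 2304 := ChunkP.g g67 g78
theorem g80 : ChunkP 6 6 2048 2560 48 64 1104 2304 := ChunkP.R k58 g79
theorem g81 : ChunkP 6 6 2048 2560 48 64 1008 2304 := ChunkP.R k57 g80
theorem g82 : ChunkP 6 6 2048 2560 48 64 0 2304 := ChunkP.R k56 g81
theorem g83 : ChunkP 6 6 2048 2560 32 64 0 2304 := ChunkP.g g52 g82
theorem g84 : ChunkP 6 6 2048 2560 0 64 0 2304 := ChunkP.g k43 g83
theorem g85 : ChunkP 6 6 2048 2560 0 101 0 2304 := ChunkP.g g84 k87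
theorem g86 : ChunkP 6 6 2560 3072 0 32 0 2304 := ChunkP.g k88 k89
theorem g87 : ChunkP 6 6 2816 3072 40 48 1152 2304 := ChunkP.g k96 k97
theorem g88 : ChunkP 6 6 2816 3072 40 48 1056 2304 := ChunkP.R k95 g87
theorem g89 : ChunkP 6 6 2560 3072 40 48 1056 2304 := ChunkP.r k94 g88
theorem g90 : ChunkP 6 6 2560 3072 40 48 912 2304 := ChunkP.R k93 g89
theorem g91 : ChunkP 6 6 2560 3072 32 48 912 2304 := ChunkP.g k92 g90
theorem g92 : ChunkP 6 6 2560 3072 32 48 864 2304 := ChunkP.R k91 g91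
theorem g93 : ChunkP 6 6 2560 3072 32 48 0 2304 := ChunkP.R k90 g92
theorem g94 : ChunkP 6 6 2560 3072 48 56 1104 2304 := ChunkP.r k102 k103
theorem g95 : ChunkP 6 6 2560 3072 48 56 1056 2304 := ChunkP.R k101 g94
theorem g96 : ChunkP 6 6 2560 3072 48 56 960 2304 := ChunkP.R k100 g95
theorem g97 : ChunkP 6 6 2560 3072 48 64 960 2304 := ChunkP.g g96 k104
theorem g98 : ChunkP 6 6 2560 3072 48 64 912 2304 := ChunkP.R k99 g97
theorem g99 : ChunkP 6 6 2560 3072 48 64 0 2304 := ChunkP.R k98 g98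
theorem g100 : ChunkP 6 6 2560 3072 32 64 0 2304 := ChunkP.g g93 g99
theorem g101 : ChunkP 6 6 2560 3072 0 64 0 2304 := ChunkP.g g86 g100
theorem g102 : ChunkP 6 6 2560 3072 0 101 0 2304 := ChunkP.g g101 k105
theorem g103 : ChunkP 6 6 2048 3072 0 101 0 2304 := ChunkP.r g85 g102
theorem g104 : ChunkP 6 6 3072 3584 16 32 720 2304 := ChunkP.g k109 k110
theorem g105 : ChunkP 6 6 3072 3584 16 32 576 2304 := ChunkP.R k108 g104
theorem g106 : ChunkP 6 6 3072 3584 16 32 0 2304 := ChunkP.R k107 g105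
theorem g107 : ChunkP 6 6 3072 3584 0 32 0 2304 := ChunkP.g k106 g106
theorem g108 : ChunkP 6 6 3072 3584 32 48 768 2304 := ChunkP.g k113 k114
theorem g109 : ChunkP 6 6 3072 3584 32 48 576 2304 := ChunkP.R k112 g108
theorem g110 : ChunkP 6 6 3072 3584 32 48 0 2304 := ChunkP.R k111 g109
theorem g111 : ChunkP 6 6 3072 3584 48 64 0 2304 := ChunkP.R k115 k116
theorem g112 : ChunkP 6 6 3072 3584 32 64 0 2304 := ChunkP.g g110 g111
theorem g113 : ChunkP 6 6 3072 3584 0 64 0 2304 := ChunkP.g g107 g112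
theorem g114 : ChunkP 6 6 3072 3584 0 101 0 2304 := ChunkP.g g113 k117
theorem g115 : ChunkP 6 6 3584 4096 0 32 0 2304 := ChunkP.g k118 k119
theorem g116 : ChunkP 6 6 3584 4096 0 64 0 2304 := ChunkP.g g115 k120
theorem g117 : ChunkP 6 6 3584 4096 0 101 0 2304 := ChunkP.g g116 k121
theorem g118 : ChunkP 6 6 3072 4096 0 101 0 2304 := ChunkP.r g114 g117
theorem g119 : ChunkP 6 6 2048 4096 0 101 0 2304 := ChunkP.r g103 g118
theorem g120 : ChunkP 6 6 0 4096 0 101 0 2304 := ChunkP.r g41 g119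
theorem g121 : ChunkP 6 6 0 1024 0 101 2304 2464 := ChunkP.r k122 k123
theorem g122 : ChunkP 6 6 1024 1536 32 64 2304 2464 := ChunkP.g k125 k126
theorem g123 : ChunkP 6 6 1024 1536 0 64 2304 2464 := ChunkP.g k124 g122
theorem g124 : ChunkP 6 6 1024 1536 0 101 2304 2464 := ChunkP.g g123 k127
theorem g125 : ChunkP 6 6 1792 2048 16 32 2304 2464 := ChunkP.g k130 k131
theorem g126 : ChunkP 6 6 1536 2048 16 32 2304 2464 := ChunkP.r k129 g125
theorem g127 : ChunkP 6 6 1536 2048 0 32 2304 2464 := ChunkP.g k128 g126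
theorem g128 : ChunkP 6 6 1536 1792 40 48 2304 2464 := ChunkP.r k133 k134
theorem g129 : ChunkP 6 6 1536 1792 32 48 2304 2464 := ChunkP.g k132 g128
theorem g130 : ChunkP 6 6 1792 2048 32 40 2304 2464 := ChunkP.r k135 k136
theorem g131 : ChunkP 6 6 1792 1920 40 48 2304 2464 := ChunkP.g k137 k138
theorem g132 : ChunkP 6 6 1792 2048 40 48 2304 2464 := ChunkP.r g131 k139
theorem g133 : ChunkP 6 6 1792 2048 32 48 2304 2464 := ChunkP.g g130 g132
theorem g134 : ChunkP 6 6 1536 2048 32 48 2304 2464 := ChunkP.r g129 g133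
theorem g135 : ChunkP 6 6 1664 1792 48 56 2304 2464 := ChunkP.g k141 k142
theorem g136 : ChunkP 6 6 1536 1792 48 56 2304 2464 := ChunkP.r k140 g135
theorem g137 : ChunkP 6 6 1664 1792 56 64 2304 2464 := ChunkP.g k144 k145
theorem g138 : ChunkP 6 6 1536 1792 56 64 2304 2464 := ChunkP.r k143 g137
theorem g139 : ChunkP 6 6 1536 1792 48 64 2304 2464 := ChunkP.g g136 g138
theorem g140 : ChunkP 6 6 1792 1920 52 56 2304 2464 := ChunkP.r k147 k148
theorem g141 : ChunkP 6 6 1792 1920 48 56 2304 2464 := ChunkP.g k146 g140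
theorem g142 : ChunkP 6 6 1920 2048 48 52 2304 2464 := ChunkP.r k149 k150
theorem g143 : ChunkP 6 6 1920 2048 52 56 2304 2464 := ChunkP.r k151 k152
theorem g144 : ChunkP 6 6 1920 2048 48 56 2304 2464 := ChunkP.g g142 g143
theorem g145 : ChunkP 6 6 1792 2048 48 56 2304 2464 := ChunkP.r g141 g144
theorem g146 : ChunkP 6 6 1792 1920 56 60 2304 2464 := ChunkP.r k153 k154
theorem g147 : ChunkP 6 6 1792 1920 60 64 2304 2464 := ChunkP.r k155 k156
theorem g148 : ChunkP 6 6 1792 1920 56 64 2304 2464 := ChunkP.g g146 g147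
theorem g149 : ChunkP 6 6 1920 1984 56 60 2304 2464 := ChunkP.g k157 k158
theorem g150 : ChunkP 6 6 1984 2048 56 60 2304 2464 := ChunkP.g k159 k160
theorem g151 : ChunkP 6 6 1920 2048 56 60 2304 2464 := ChunkP.r g149 g150
theorem g152 : ChunkP 6 6 1920 2048 60 64 2304 2464 := ChunkP.r k161 k162
theorem g153 : ChunkP 6 6 1920 2048 56 64 2304 2464 := ChunkP.g g151 g152
theorem g154 : ChunkP 6 6 1792 2048 56 64 2304 2464 := ChunkP.r g148 g153
theorem g155 : ChunkP 6 6 1792 2048 48 64 2304 2464 := ChunkP.g g145 g154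
theorem g156 : ChunkP 6 6 1536 2048 48 64 2304 2464 := ChunkP.r g139 g155
theorem g157 : ChunkP 6 6 1536 2048 32 64 2304 2464 := ChunkP.g g134 g156
theorem g158 : ChunkP 6 6 1536 2048 0 64 2304 2464 := ChunkP.g g127 g157
theorem g159 : ChunkP 6 6 1664 1792 64 72 2304 2464 := ChunkP.g k164 k165
theorem g160 : ChunkP 6 6 1536 1792 64 72 2304 2464 := ChunkP.r k163 g159
theorem g161 : ChunkP 6 6 1536 1792 64 80 2304 2464 := ChunkP.g g160 k166
theorem g162 : ChunkP 6 6 1536 2048 64 80 2304 2464 := ChunkP.r g161 k167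
theorem g163 : ChunkP 6 6 1536 2048 64 96 2304 2464 := ChunkP.g g162 k168
theorem g164 : ChunkP 6 6 1536 2048 64 101 2304 2464 := ChunkP.g g163 k169
theorem g165 : ChunkP 6 6 1536 2048 0 101 2304 2464 := ChunkP.g g158 g164
theorem g166 : ChunkP 6 6 1024 2048 0 101 2304 2464 := ChunkP.r g124 g165
theorem g167 : ChunkP 6 6 0 2048 0 101 2304 2464 := ChunkP.r g121 g166
theorem g168 : ChunkP 6 6 2048 2560 0 32 2304 2464 := ChunkP.g k170 k171
theorem g169 : ChunkP 6 6 2048 2304 32 40 2304 2464 := ChunkP.g k172 k173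
theorem g170 : ChunkP 6 6 2048 2560 32 40 2304 2464 := ChunkP.r g169 k174
theorem g171 : ChunkP 6 6 2048 2304 44 48 2304 2464 := ChunkP.r k176 k177
theorem g172 : ChunkP 6 6 2048 2304 40 48 2304 2464 := ChunkP.g k175 g171
theorem g173 : ChunkP 6 6 2304 2560 44 48 2304 2464 := ChunkP.r k179 k180
theorem g174 : ChunkP 6 6 2304 2560 40 48 2304 2464 := ChunkP.g k178 g173
theorem g175 : ChunkP 6 6 2048 2560 40 48 2304 2464 := ChunkP.r g172 g174
theorem g176 : ChunkP 6 6 2048 2560 32 48 2304 2464 := ChunkP.g g170 g175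
theorem g177 : ChunkP 6 6 2048 2304 48 52 2304 2464 := ChunkP.r k181 k182
theorem g178 : ChunkP 6 6 2048 2176 52 56 2304 2464 := ChunkP.g k183 k184
theorem g179 : ChunkP 6 6 2048 2304 52 56 2304 2464 := ChunkP.r g178 k185
theorem g180 : ChunkP 6 6 2048 2304 48 56 2304 2464 := ChunkP.g g177 g179
theorem g181 : ChunkP 6 6 2304 2560 48 52 2304 2464 := ChunkP.r k186 k187
theorem g182 : ChunkP 6 6 2304 2560 48 56 2304 2464 := ChunkP.g g181 k188
theorem g183 : ChunkP 6 6 2048 2560 48 56 2304 2464 := ChunkP.r g180 g182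
theorem g184 : ChunkP 6 6 2048 2176 56 60 2304 2464 := ChunkP.g k189 k190
theorem g185 : ChunkP 6 6 2048 2304 56 60 2304 2464 := ChunkP.r g184 k191
theorem g186 : ChunkP 6 6 2048 2304 56 64 2304 2464 := ChunkP.g g185 k192
theorem g187 : ChunkP 6 6 2048 2560 56 64 2304 2464 := ChunkP.r g186 k193
theorem g188 : ChunkP 6 6 2048 2560 48 64 2304 2464 := ChunkP.g g183 g187
theorem g189 : ChunkP 6 6 2048 2560 32 64 2304 2464 := ChunkP.g g176 g188
theorem g190 : ChunkP 6 6 2048 2560 0 64 2304 2464 := ChunkP.g g168 g189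
theorem g191 : ChunkP 6 6 2048 2560 0 101 2304 2464 := ChunkP.g g190 k194
theorem g192 : ChunkP 6 6 2560 3072 40 48 2304 2464 := ChunkP.r k197 k198
theorem g193 : ChunkP 6 6 2560 3072 32 48 2304 2464 := ChunkP.g k196 g192
theorem g194 : ChunkP 6 6 2560 3072 32 64 2304 2464 := ChunkP.g g193 k199
theorem g195 : ChunkP 6 6 2560 3072 0 64 2304 2464 := ChunkP.g k195 g194
theorem g196 : ChunkP 6 6 2560 3072 0 101 2304 2464 := ChunkP.g g195 k200
theorem g197 : ChunkP 6 6 2048 3072 0 101 2304 2464 := ChunkP.r g191 g196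
theorem g198 : ChunkP 6 6 2048 4096 0 101 2304 2464 := ChunkP.r g197 k201
theorem g199 : ChunkP 6 6 0 4096 0 101 2304 2464 := ChunkP.r g167 g198
theorem g200 : ChunkP 6 6 1024 1536 0 64 2464 2476 := ChunkP.g k203 k204
theorem g201 : ChunkP 6 6 1024 1536 0 101 2464 2476 := ChunkP.g g200 k205
theorem g202 : ChunkP 6 6 1536 1792 32 48 2464 2476 := ChunkP.g k207 k208
theorem g203 : ChunkP 6 6 1536 2048 32 48 2464 2476 := ChunkP.r g202 k209
theorem g204 : ChunkP 6 6 1536 1792 48 64 2464 2476 := ChunkP.g k210 k211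
theorem g205 : ChunkP 6 6 1920 2048 48 56 2464 2476 := ChunkP.g k213 k214
theorem g206 : ChunkP 6 6 1792 2048 48 56 2464 2476 := ChunkP.r k212 g205
theorem g207 : ChunkP 6 6 1920 2048 56 60 2464 2476 := ChunkP.r k216 k217
theorem g208 : ChunkP 6 6 1920 2048 56 64 2464 2476 := ChunkP.g g207 k218
theorem g209 : ChunkP 6 6 1792 2048 56 64 2464 2476 := ChunkP.r k215 g208
theorem g210 : ChunkP 6 6 1792 2048 48 64 2464 2476 := ChunkP.g g206 g209
theorem g211 : ChunkP 6 6 1536 2048 48 64 2464 2476 := ChunkP.r g204 g210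
theorem g212 : ChunkP 6 6 1536 2048 32 64 2464 2476 := ChunkP.g g203 g211
theorem g213 : ChunkP 6 6 1536 2048 0 64 2464 2476 := ChunkP.g k206 g212
theorem g214 : ChunkP 6 6 1536 2048 0 101 2464 2476 := ChunkP.g g213 k219
theorem g215 : ChunkP 6 6 1024 2048 0 101 2464 2476 := ChunkP.r g201 g214
theorem g216 : ChunkP 6 6 0 2048 0 101 2464 2476 := ChunkP.r k202 g215
theorem g217 : ChunkP 6 6 2048 2304 48 56 2464 2476 := ChunkP.g k222 k223
theorem g218 : ChunkP 6 6 2048 2560 48 56 2464 2476 := ChunkP.r g217 k224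
theorem g219 : ChunkP 6 6 2048 2560 48 64 2464 2476 := ChunkP.g g218 k225
theorem g220 : ChunkP 6 6 2048 2560 32 64 2464 2476 := ChunkP.g k221 g219
theorem g221 : ChunkP 6 6 2048 2560 0 64 2464 2476 := ChunkP.g k220 g220
theorem g222 : ChunkP 6 6 2048 2560 0 101 2464 2476 := ChunkP.g g221 k226
theorem g223 : ChunkP 6 6 2048 3072 0 101 2464 2476 := ChunkP.r g222 k227
theorem g224 : ChunkP 6 6 2048 4096 0 101 2464 2476 := ChunkP.r g223 k228
theorem g225 : ChunkP 6 6 0 4096 0 101 2464 2476 := ChunkP.r g216 g224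
theorem g226 : ChunkP 6 6 0 4096 0 101 0 2464 := ChunkP.R g120 g199
theorem g227 : ChunkP 6 6 0 4096 0 101 0 2476 := ChunkP.R g226 g225

/-- the whole box -/
theorem allBox : ChunkP 6 6 0 4096 0 101 0 2476 := g227

theorem full {N : ℕ} (hNa : 6 ≤ N) (hNb : N ≤ 6) {z w : Fin N → ℂ} {R : ℝ} {σ : Fin N → ℂ}
    (hC : Pool.Agent.Lib.MP_af3a4a_an.P1.H80.Cfg2 N z w R σ) : ((2476 : ℕ) : ℝ) / 1024 < R := ChunkP.full allBox hNa hNb hC

end Pool.Agent.Lib.MP_af3a4a_an.P1.CHK.DATA.N6
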